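import Pool.Agent.MP_83ba34_nt.Three

namespace Pool.Agent.Results.MP_83ba34_nt.ThreePrimes

/-- If `n > 1` has at most three distinct prime factors, there are at most three integers `a` with
`1 ≤ a < n`, `n ∣ a ^ 2 - 1` and `a ∣ n ^ 2 - 1`. -/
theorem result (n : ℕ) (hn : 1 < n) (h : n.primeFactors.card ≤ 3) :
    ((Finset.Ico (1 : ℤ) n).filter
      (fun a : ℤ => (n : ℤ) ∣ a ^ 2 - 1 ∧ a ∣ (n : ℤ) ^ 2 - 1)).card ≤ 3 := by
  by_contra hc
  set A := (Finset.Ico (1 : ℤ) n).filter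
      (fun a : ℤ => (n : ℤ) ∣ a ^ 2 - 1 ∧ a ∣ (n : ℤ) ^ 2 - 1) with hA
  have h1 : 1 < ((A.erase 1).erase (n - 1)).card := by
    have := Finset.pred_card_le_card_erase (s := A) (a := 1)
    have := Finset.pred_card_le_card_erase (s := A.erase 1) (a := n - 1)
    omega
  obtain ⟨a, ha, b, hb, hab⟩ := Finset.one_lt_card.1 h1
  simp only [hA, Finset.mem_erase, Finset.mem_filter, Finset.mem_Ico] at ha hb
  rcases lt_or_gt_of_ne hab with h2 | h2
  · exact Pool.Agent.MP_83ba34_nt.no_two h (by omega) h2 (by omega) ha.2.2.2.1 ha.2.2.2.2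
      hb.2.2.2.1 hb.2.2.2.2
  · exact Pool.Agent.MP_83ba34_nt.no_two h (by omega) h2 (by omega) hb.2.2.2.1 hb.2.2.2.2
      ha.2.2.2.1 ha.2.2.2.2

end Pool.Agent.Results.MP_83ba34_nt.ThreePrimes
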